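import Pool.Agent.Run7.h783.MW.Rep

/-!
# The fourth moment over the points `θ + m α` (helper783)
-/

set_option autoImplicit false

open Finset

namespace Pool.Agent.Run7.h783.MW

open Pool.Agent.Run7.h556.MW (box mem_box li fk deg_card w_le)
open Pool.Agent.W928.MW (prs dl Q p_sq)
open Pool.Agent.N965.LN (dn)
open Pool.Agent.Run7.h783.PL (Roth base)

theorem dn_neg (x : ℝ) : dn (-x) = dn x := by
  have key : ∀ y : ℝ, dn (-y) ≤ dn y := by
    intro y
    have h1 : dn (-y) ≤ |-y - ((-round y : ℤ) : ℝ)| := round_le (-y) _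
    refine h1.trans (le_of_eq ?_)
    unfold dn
    rw [← abs_neg]
    congr 1
    push_cast
    ring
  refine le_antisymm (key x) ?_
  have h := key (-x)
  rwa [neg_neg] at h

theorem cos_sum (θ α : ℝ) (K : ℕ) (h : ℤ) (hd : 0 < dn (α * h)) :
    ∑ m ∈ range K, Real.cos (2 * Real.pi * (θ + m * α) * (h : ℝ)) ≤ 1 / dn (α * h) := by
  have h1 : ∀ m ∈ range K, Real.cos (2 * Real.pi * (θ + m * α) * (h : ℝ)) =
      (Pool.Agent.H520R3.e (θ * h) * Pool.Agent.H520R3.e ((α * h) * m)).re := by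
    intro m _
    rw [← Pool.Agent.H520R3.e_add]
    unfold Pool.Agent.H520R3.e
    rw [Complex.exp_ofReal_mul_I_re]
    congr 1
    ring
  rw [Finset.sum_congr rfl h1, ← Complex.re_sum, ← Finset.mul_sum]
  refine (Complex.re_le_norm _).trans ?_
  rw [norm_mul, Pool.Agent.H520R3.norm_e, one_mul]
  have h2 := Pool.Agent.H520R3.geom_bound (x := α * h) (κ := dn (α * h) / 2) (by positivity)
    (fun n => by
      have : dn (α * h) ≤ |α * h - n| := round_le _ n
      linarith) K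
  refine h2.trans (le_of_eq ?_)
  congr 1
  ring

/-- the bound for one difference -/
noncomputable def Ph (α : ℝ) (K : ℕ) (h : ℤ) : ℝ := if h = 0 then (K : ℝ) else 1 / dn (α * h)

theorem Ph_nonneg (α : ℝ) (K : ℕ) (h : ℤ) : 0 ≤ Ph α K h := by
  unfold Ph
  split_ifs
  · positivity
  · exact div_nonneg zero_le_one (abs_nonneg _)

theorem dn_pos (α : ℝ) (hα : Irrational α) (h : ℤ) (hne : h ≠ 0) : 0 < dn (α * h) := by
  unfold dn
  rw [abs_pos, sub_ne_zero]
  have h1 : Irrational (α * h) := hα.mul_intCast hne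
  exact h1.ne_int _

theorem moment_le (k N K : ℕ) (θ α : ℝ) (hα : Irrational α) :
    ∑ m ∈ range K, Q k N (θ + m * α) ≤ ∑ v ∈ box N, Ph α K (hh k v) := by
  classical
  have h1 : ∑ m ∈ range K, Q k N (θ + m * α) = ∑ s ∈ range (2 * N + 1), ∑ z ∈ prs N s,
      ∑ w ∈ prs N s, ∑ m ∈ range K, Real.cos (2 * Real.pi * (θ + m * α) * ((dl k z w : ℤ) : ℝ)) := by
    unfold Q
    rw [Finset.sum_comm]
    apply Finset.sum_congr rfl
    intro s _
    rw [Finset.sum_congr (s₁ := range K) rfl (fun m _ => p_sq k N s (θ + m * α)), Finset.sum_comm]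
    apply Finset.sum_congr rfl
    intro z _
    rw [Finset.sum_comm]
    apply Finset.sum_congr rfl
    intro w _
    apply Finset.sum_congr rfl
    intro m _
    congr 2
    unfold dl
    push_cast
    ring
  rw [h1]
  refine le_trans ?_ (to_box k N (Ph α K) (Ph_nonneg α K))
  refine Finset.sum_le_sum fun s _ => Finset.sum_le_sum fun z _ => Finset.sum_le_sum fun w _ => ?_
  unfold Ph
  split_ifs with h0
  · calc ∑ m ∈ range K, Real.cos (2 * Real.pi * (θ + m * α) * ((dl k z w : ℤ) : ℝ)) ≤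
          ∑ m ∈ range K, (1 : ℝ) := Finset.sum_le_sum (fun m _ => Real.cos_le_one _)
      _ = K := by rw [Finset.sum_const, Finset.card_range, nsmul_eq_mul, mul_one]
  · exact cos_sum θ α K _ (dn_pos α hα _ h0)

theorem sum_Icc_int (f : ℤ → ℝ) (hf : ∀ h, f (-h) = f h) (L : ℕ) :
    ∑ h ∈ (Icc (-(L : ℤ)) L).filter (fun h => h ≠ 0), f h = 2 * ∑ n ∈ Icc 1 L, f (n : ℤ) := by
  induction L with
  | zero =>
    have hset : (Icc (-((0 : ℕ) : ℤ)) ((0 : ℕ) : ℤ)).filter (fun h => h ≠ 0) = ∅ := by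
      ext a
      simp only [mem_filter, Finset.mem_Icc, Finset.notMem_empty, iff_false]
      omega
    rw [hset]
    simp
  | succ L ih =>
    have hset : (Icc (-((L + 1 : ℕ) : ℤ)) ((L + 1 : ℕ) : ℤ)).filter (fun h => h ≠ 0) =
        insert ((L : ℤ) + 1) (insert (-((L : ℤ) + 1)) ((Icc (-(L : ℤ)) L).filter (fun h => h ≠ 0))) := by
      ext a
      simp only [mem_filter, Finset.mem_insert, Finset.mem_Icc]
      push_cast
      omega
    rw [hset, Finset.sum_insert, Finset.sum_insert, ih, Finset.sum_Icc_succ_top (by omega), hf]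
    · push_cast
      ring
    · simp only [mem_filter, Finset.mem_Icc]
      omega
    · simp only [mem_filter, Finset.mem_insert, Finset.mem_Icc]
      omega

theorem box_sum (k N K R : ℕ) (α : ℝ) (hk : 3 ≤ k)
    (hR : ∀ h : ℤ, h ≠ 0 → h.natAbs ≤ (4 * N) ^ k → ((box N).filter (fun v => hh k v = h)).card ≤ R) :
    ∑ v ∈ box N, Ph α K (hh k v) ≤ 2 * (N : ℝ) ^ 2 * K +
      2 * R * ∑ n ∈ Icc 1 ((4 * N) ^ k), 1 / dn ((n : ℝ) * α) := by
  classical
  rw [← Finset.sum_filter_add_sum_filter_not (box N) (fun v => hh k v = 0)]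
  refine add_le_add ?_ ?_
  · have h1 : ∑ v ∈ (box N).filter (fun v => hh k v = 0), Ph α K (hh k v) =
        ∑ v ∈ (box N).filter (fun v => hh k v = 0), (K : ℝ) := by
      refine Finset.sum_congr rfl fun v hv => ?_
      rw [mem_filter] at hv
      unfold Ph
      rw [if_pos hv.2]
    rw [h1, Finset.sum_const, nsmul_eq_mul]
    refine mul_le_mul_of_nonneg_right ?_ (Nat.cast_nonneg K)
    have h2 : ((box N).filter (fun v => hh k v = 0)).card ≤ 2 * N ^ 2 := by
      refine le_trans (Finset.card_le_card ?_) (deg_card (by omega : 2 ≤ k) N)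
      intro v hv
      rw [mem_filter] at hv ⊢
      refine ⟨hv.1, ?_⟩
      have := hv.2
      unfold hh at this
      linarith
    exact_mod_cast h2
  · set L : ℕ := (4 * N) ^ k with hL
    set I : Finset ℤ := (Icc (-(L : ℤ)) L).filter (fun h => h ≠ 0) with hI
    have hmaps : ∀ v ∈ (box N).filter (fun v => ¬ hh k v = 0), hh k v ∈ I := by
      intro v hv
      rw [mem_filter] at hv
      have h1 : (hh k v).natAbs ≤ L := w_le k N (by omega) v hv.1
      rw [hI, mem_filter, mem_Icc]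
      refine ⟨?_, hv.2⟩
      omega
    rw [← Finset.sum_fiberwise_of_maps_to hmaps]
    have h2 : ∀ h ∈ I, ∑ v ∈ ((box N).filter (fun v => ¬ hh k v = 0)).filter (fun v => hh k v = h),
        Ph α K (hh k v) ≤ R * Ph α K h := by
      intro h hh'
      rw [hI, mem_filter, mem_Icc] at hh'
      have h3 : ∑ v ∈ ((box N).filter (fun v => ¬ hh k v = 0)).filter (fun v => hh k v = h),
          Ph α K (hh k v) =
          ∑ v ∈ ((box N).filter (fun v => ¬ hh k v = 0)).filter (fun v => hh k v = h), Ph α K h := by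
        refine Finset.sum_congr rfl fun v hv => ?_
        rw [mem_filter] at hv
        rw [hv.2]
      rw [h3, Finset.sum_const, nsmul_eq_mul]
      refine mul_le_mul_of_nonneg_right ?_ (Ph_nonneg _ _ _)
      have h4 : (((box N).filter (fun v => ¬ hh k v = 0)).filter (fun v => hh k v = h)).card ≤ R := by
        refine le_trans (Finset.card_le_card ?_) (hR h hh'.2 (by omega))
        intro v hv
        rw [mem_filter, mem_filter] at hv
        rw [mem_filter]
        exact ⟨hv.1.1, hv.2⟩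
      exact_mod_cast h4
    refine (Finset.sum_le_sum h2).trans ?_
    rw [← Finset.mul_sum]
    have h5 : ∑ h ∈ I, Ph α K h = ∑ h ∈ I, 1 / dn (α * h) := by
      refine Finset.sum_congr rfl fun h hh' => ?_
      rw [hI, mem_filter] at hh'
      unfold Ph
      rw [if_neg hh'.2]
    have h6 := sum_Icc_int (fun h : ℤ => 1 / dn (α * h)) (fun h => by
      push_cast
      rw [mul_neg, dn_neg]) L
    rw [h5, hI, h6]
    have h7 : ∑ n ∈ Icc 1 L, 1 / dn (α * ((n : ℤ) : ℝ)) = ∑ n ∈ Icc 1 L, 1 / dn ((n : ℝ) * α) := by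
      refine Finset.sum_congr rfl fun n _ => ?_
      push_cast
      rw [mul_comm]
    rw [h7]
    apply le_of_eq
    ring

/-- **The fourth moment over the points `θ + m α`.** -/
theorem moment (k : ℕ) (hk : 3 ≤ k) (α : ℝ) (hα : Irrational α) (hRo : Roth α) (δ : ℝ) (hδ : 0 < δ) :
    ∃ C : ℝ, 0 < C ∧ ∀ (N K : ℕ) (θ : ℝ), 1 ≤ N →
      ∑ m ∈ range K, Q k N (θ + m * α) ≤ 2 * (N : ℝ) ^ 2 * K + C * (N : ℝ) ^ (k + δ) := by
  have hk0 : (0 : ℝ) < k := by exact_mod_cast (by omega : 0 < k)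
  set τ : ℝ := δ / (3 * k) with hτ
  have hτ0 : 0 < τ := by positivity
  obtain ⟨C1, hC1, hdiv⟩ := Pool.Agent.H510R2.divisor_bound τ hτ0
  obtain ⟨C2, hC2, hb⟩ := base α hRo τ hτ0
  refine ⟨2 * (k * (2 * C1) ^ 2) * C2 * (4 ^ k) ^ (1 + 3 * τ), by positivity, fun N K θ hN => ?_⟩
  have hN' : (1 : ℝ) ≤ N := by exact_mod_cast hN
  have hN0 : (0 : ℝ) < N := by linarith
  set L : ℕ := (4 * N) ^ k with hL
  have hL1 : 1 ≤ L := Nat.one_le_pow _ _ (by omega)
  have hL' : (1 : ℝ) ≤ L := by exact_mod_cast hL1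
  have hL0 : (0 : ℝ) < L := by linarith
  set D : ℕ := ⌊C1 * (L : ℝ) ^ τ⌋₊ with hD
  have hD' : (D : ℝ) ≤ C1 * (L : ℝ) ^ τ := Nat.floor_le (by positivity)
  have hDb : ∀ n : ℕ, 1 ≤ n → n ≤ L → n.divisors.card ≤ D := by
    intro n hn hnL
    apply Nat.le_floor
    refine (hdiv n hn).trans ?_
    refine mul_le_mul_of_nonneg_left ?_ hC1.le
    exact Real.rpow_le_rpow (by positivity) (by exact_mod_cast hnL) hτ0.le
  have h1 := moment_le k N K θ α hα
  have h2 := box_sum k N K (k * (2 * D) ^ 2) α hk (fun h hne hle => by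
    exact rep k N D hk h hne (hDb h.natAbs (Int.natAbs_pos.2 hne) hle))
  refine h1.trans (h2.trans (add_le_add le_rfl ?_))
  have h3 := hb L hL1
  have h4 : (((k * (2 * D) ^ 2 : ℕ)) : ℝ) ≤ k * (2 * C1) ^ 2 * (L : ℝ) ^ (2 * τ) := by
    push_cast
    have h5 : (2 * (D : ℝ)) ^ 2 ≤ (2 * (C1 * (L : ℝ) ^ τ)) ^ 2 :=
      pow_le_pow_left₀ (by positivity) (by linarith) 2
    have h6 : (2 * (C1 * (L : ℝ) ^ τ)) ^ 2 = (2 * C1) ^ 2 * (L : ℝ) ^ (2 * τ) := by
      have e : (L : ℝ) ^ (2 * τ) = ((L : ℝ) ^ τ) ^ 2 := by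
        rw [sq, ← Real.rpow_add hL0]
        congr 1
        ring
      rw [e]
      ring
    rw [h6] at h5
    calc (k : ℝ) * (2 * (D : ℝ)) ^ 2 ≤ k * ((2 * C1) ^ 2 * (L : ℝ) ^ (2 * τ)) :=
          mul_le_mul_of_nonneg_left h5 hk0.le
      _ = _ := by ring
  calc 2 * (((k * (2 * D) ^ 2 : ℕ)) : ℝ) * ∑ n ∈ Icc 1 L, 1 / dn ((n : ℝ) * α)
      ≤ 2 * (k * (2 * C1) ^ 2 * (L : ℝ) ^ (2 * τ)) * (C2 * (L : ℝ) ^ (1 + τ)) := by
        refine mul_le_mul (mul_le_mul_of_nonneg_left h4 (by norm_num)) h3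
          (Finset.sum_nonneg fun n _ => div_nonneg zero_le_one (abs_nonneg _)) (by positivity)
    _ = 2 * (k * (2 * C1) ^ 2) * C2 * (L : ℝ) ^ (1 + 3 * τ) := by
        have e : (L : ℝ) ^ (1 + 3 * τ) = (L : ℝ) ^ (2 * τ) * (L : ℝ) ^ (1 + τ) := by
          rw [← Real.rpow_add hL0]
          congr 1
          ring
        rw [e]
        ring
    _ = 2 * (k * (2 * C1) ^ 2) * C2 * (4 ^ k) ^ (1 + 3 * τ) * (N : ℝ) ^ (k + δ) := by
        have e1 : (L : ℝ) = 4 ^ k * (N : ℝ) ^ k := by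
          rw [hL]
          push_cast
          rw [mul_pow]
        have e2 : ((N : ℝ) ^ k) ^ (1 + 3 * τ) = (N : ℝ) ^ (k + δ) := by
          rw [← Real.rpow_natCast (N : ℝ) k, ← Real.rpow_mul hN0.le]
          congr 1
          rw [hτ]
          field_simp
        rw [e1, Real.mul_rpow (by positivity) (by positivity), e2]
        ring

end Pool.Agent.Run7.h783.MW
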