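import Pool.Agent.Run7.h783.MW.Gen

/-!
# All scales at once, general exponents (helper783)
-/

set_option autoImplicit false

open Finset Filter Topology

namespace Pool.Agent.Run7.h783.MW

open Pool.Agent.W928.MW (sm e_norm)
open Pool.Agent.Run7.h783.PL (Roth)

theorem dyadic' (k : ℕ) (α : ℝ) (p : ℕ) (hp : 2 ≤ p) (a b Γ u : ℝ) (hLV : LV k α p a b)
    (ha : a ≤ p * (1 - u)) (hb : b ≤ Γ + p * (1 - u)) (hΓ : 1 ≤ Γ) (ε η : ℝ) (hε : 0 < ε)
    (hη : 0 < η) :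
    ∃ i0 : ℕ, ∀ (K : ℕ) (θ : ℝ), ∃ Bad ⊆ range K, (Bad.card : ℝ) ≤ η * K ∧
      ∀ m ∈ range K, m ∉ Bad → ∀ i : ℕ, i0 ≤ i →
        ((2 : ℝ) ^ i) ^ Γ ≤ (2 : ℝ) ^ Γ * K →
        ∀ ξ : ℝ, ‖sm k (2 ^ i) (θ + m * α) ξ‖ ≤ ((2 : ℝ) ^ i) ^ (1 - u + ε / 2) := by
  classical
  obtain ⟨C, hC, hmom⟩ := hLV (ε / 2) (by linarith)
  have hp' : (2 : ℝ) ≤ p := by exact_mod_cast hp
  set C' : ℝ := C * (1 + (2 : ℝ) ^ Γ) with hC'
  have hC'0 : 0 < C' := by positivity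
  set ρ : ℝ := (2 : ℝ) ^ (-(ε / 2)) with hρ
  have hρ0 : 0 < ρ := by positivity
  have hρ1 : ρ < 1 := Real.rpow_lt_one_of_one_lt_of_neg (by norm_num) (by linarith)
  obtain ⟨i0, hi0⟩ : ∃ i0 : ℕ, C' * (ρ ^ i0 / (1 - ρ)) ≤ η := by
    have h1 : Tendsto (fun i : ℕ => C' * (ρ ^ i / (1 - ρ))) atTop (𝓝 (C' * (0 / (1 - ρ)))) :=
      ((tendsto_pow_atTop_nhds_zero_of_lt_one hρ0.le hρ1).div_const _).const_mul _
    rw [zero_div, mul_zero] at h1
    obtain ⟨i0, h2⟩ := (h1.eventually (gt_mem_nhds hη)).exists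
    exact ⟨i0, h2.le⟩
  refine ⟨i0, fun K θ => ?_⟩
  set lam : ℕ → ℝ := fun i => ((2 : ℝ) ^ i) ^ (1 - u + ε / 2) with hlam
  have hlam0 : ∀ i, 0 < lam i := fun i => by
    simp only [hlam]
    positivity
  set B : ℕ → Finset ℕ := fun i => if ((2 : ℝ) ^ i) ^ Γ ≤ (2 : ℝ) ^ Γ * K then
    (range K).filter (fun m : ℕ => ∃ ξ : ℝ, lam i < ‖sm k (2 ^ i) (θ + m * α) ξ‖) else ∅ with hB
  have hBsub : ∀ i, B i ⊆ range K := by
    intro i
    simp only [hB]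
    split_ifs
    · exact Finset.filter_subset _ _
    · exact Finset.empty_subset _
  have hBcard : ∀ i, ((B i).card : ℝ) ≤ C' * K * ρ ^ i := by
    intro i
    by_cases hc : ((2 : ℝ) ^ i) ^ Γ ≤ (2 : ℝ) ^ Γ * K
    · set P : ℝ := (2 : ℝ) ^ i with hP
      have hPc : ((2 ^ i : ℕ) : ℝ) = P := by rw [hP]; push_cast; rfl
      have hP1 : 1 ≤ P := one_le_pow₀ (by norm_num)
      have hP0 : 0 < P := by linarith
      have h5 := hmom (2 ^ i) K θ (lam i) Nat.one_le_two_pow (hlam0 i) (B i) (hBsub i) (by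
        intro m hm
        simp only [hB] at hm
        rw [if_pos hc, mem_filter] at hm
        exact hm.2)
      rw [hPc] at h5
      refine h5.trans ?_
      have h6 : lam i ^ p = P ^ ((p : ℝ) * (1 - u + ε / 2)) := by
        simp only [hlam]
        rw [← Real.rpow_natCast _ p, ← Real.rpow_mul hP0.le]
        congr 1
        ring
      rw [h6, div_le_iff₀ (by positivity)]
      have h7 : ρ ^ i = P ^ (-(ε / 2)) := by
        rw [hρ, hP, ← Real.rpow_natCast (2 : ℝ) i, ← Real.rpow_natCast ((2 : ℝ) ^ (-(ε / 2))) i,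
          ← Real.rpow_mul (by norm_num), ← Real.rpow_mul (by norm_num)]
        congr 1
        ring
      rw [h7, mul_assoc (C' * (K : ℝ)), ← Real.rpow_add hP0]
      have h9 : (p : ℝ) * (1 - u) + ε / 2 ≤ -(ε / 2) + (p : ℝ) * (1 - u + ε / 2) := by
        nlinarith
      have h12 : (K : ℝ) * P ^ (a + ε / 2) ≤ K * P ^ (-(ε / 2) + (p : ℝ) * (1 - u + ε / 2)) := by
        refine mul_le_mul_of_nonneg_left ?_ (Nat.cast_nonneg K)
        apply Real.rpow_le_rpow_of_exponent_le hP1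
        linarith
      have h13 : P ^ (b + ε / 2) ≤ ((2 : ℝ) ^ Γ * K) * P ^ (-(ε / 2) + (p : ℝ) * (1 - u + ε / 2)) := by
        calc P ^ (b + ε / 2) ≤ P ^ (Γ + (-(ε / 2) + (p : ℝ) * (1 - u + ε / 2))) := by
              apply Real.rpow_le_rpow_of_exponent_le hP1
              linarith
          _ = P ^ Γ * P ^ (-(ε / 2) + (p : ℝ) * (1 - u + ε / 2)) := Real.rpow_add hP0 _ _
          _ ≤ _ := mul_le_mul_of_nonneg_right hc (by positivity)
      calc C * (K * P ^ (a + ε / 2) + P ^ (b + ε / 2)) ≤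
            C * (K * P ^ (-(ε / 2) + (p : ℝ) * (1 - u + ε / 2)) +
              ((2 : ℝ) ^ Γ * K) * P ^ (-(ε / 2) + (p : ℝ) * (1 - u + ε / 2))) :=
            mul_le_mul_of_nonneg_left (add_le_add h12 h13) hC.le
        _ = C' * K * P ^ (-(ε / 2) + (p : ℝ) * (1 - u + ε / 2)) := by rw [hC']; ring
    · simp only [hB]
      rw [if_neg hc, Finset.card_empty]
      push_cast
      positivity
  set g : ℕ := ⌈Γ⌉₊ with hg
  have hΓg : Γ ≤ g := Nat.le_ceil Γ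
  refine ⟨(Ico i0 (g + K + 1)).biUnion B, ?_, ?_, ?_⟩
  · intro m hm
    obtain ⟨i, _, hi⟩ := Finset.mem_biUnion.1 hm
    exact hBsub i hi
  · have h1 : (((Ico i0 (g + K + 1)).biUnion B).card : ℝ) ≤
        ∑ i ∈ Ico i0 (g + K + 1), ((B i).card : ℝ) := by
      exact_mod_cast Finset.card_biUnion_le
    refine h1.trans ((Finset.sum_le_sum fun i _ => hBcard i).trans ?_)
    rw [← Finset.mul_sum]
    have h2 := geom_sum_Ico_le_of_lt_one hρ0.le hρ1 (m := i0) (n := g + K + 1)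
    calc C' * (K : ℝ) * ∑ i ∈ Ico i0 (g + K + 1), ρ ^ i ≤ C' * (K : ℝ) * (ρ ^ i0 / (1 - ρ)) :=
          mul_le_mul_of_nonneg_left h2 (by positivity)
      _ = (C' * (ρ ^ i0 / (1 - ρ))) * K := by ring
      _ ≤ η * K := mul_le_mul_of_nonneg_right hi0 (Nat.cast_nonneg K)
  · intro m hm hmB i hi hc ξ
    by_contra hcon
    apply hmB
    rw [Finset.mem_biUnion]
    refine ⟨i, ?_, ?_⟩
    · rw [mem_Ico]
      refine ⟨hi, ?_⟩
      by_contra hlt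
      have h1 : g + K + 1 ≤ i := not_lt.1 hlt
      have h2 : (2 : ℝ) ^ Γ * K < (2 : ℝ) ^ i := by
        have h3 : (K : ℝ) < 2 ^ K := by exact_mod_cast Nat.lt_two_pow_self
        have h3' : (2 : ℝ) ^ Γ ≤ 2 ^ g := by
          rw [← Real.rpow_natCast (2 : ℝ) g]
          exact Real.rpow_le_rpow_of_exponent_le (by norm_num) hΓg
        calc (2 : ℝ) ^ Γ * K < (2 : ℝ) ^ Γ * 2 ^ K := mul_lt_mul_of_pos_left h3 (by positivity)
          _ ≤ 2 ^ g * 2 ^ K := mul_le_mul_of_nonneg_right h3' (by positivity)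
          _ = 2 ^ (g + K) := by rw [pow_add]
          _ ≤ 2 ^ i := pow_le_pow_right₀ (by norm_num) (by omega)
      have h4 : (2 : ℝ) ^ i ≤ ((2 : ℝ) ^ i) ^ Γ := by
        have h5 : (1 : ℝ) ≤ (2 : ℝ) ^ i := one_le_pow₀ (by norm_num)
        calc (2 : ℝ) ^ i = ((2 : ℝ) ^ i) ^ (1 : ℝ) := (Real.rpow_one _).symm
          _ ≤ _ := Real.rpow_le_rpow_of_exponent_le h5 hΓ
      linarith
    · simp only [hB]
      rw [if_pos hc, mem_filter]
      exact ⟨hm, ξ, not_le.1 hcon⟩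

/-- **Main theorem.** -/
theorem final' (k : ℕ) (α : ℝ) (p : ℕ) (hp : 2 ≤ p) (a b Γ u : ℝ) (hLV : LV k α p a b)
    (ha : a ≤ p * (1 - u)) (hb : b ≤ Γ + p * (1 - u)) (hΓ : 1 ≤ Γ) (hu : u ≤ 1) (ε η : ℝ)
    (hε : 0 < ε) (hη : 0 < η) :
    ∃ C : ℝ, 0 < C ∧ ∀ (K : ℕ) (θ : ℝ), ∃ Bad ⊆ range K, (Bad.card : ℝ) ≤ η * K ∧
      ∀ m ∈ range K, m ∉ Bad → ∀ N : ℕ, 1 ≤ N → (N : ℝ) ^ Γ ≤ K →
        ∀ ξ : ℝ, ‖sm k N (θ + m * α) ξ‖ ≤ C * (N : ℝ) ^ (1 - u + ε) := by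
  classical
  obtain ⟨i0, h⟩ := dyadic' k α p hp a b Γ u hLV ha hb hΓ ε η hε hη
  set C1 : ℝ := (4 + 8 / ε) * 2 ^ (1 - u + ε) with hC1
  have hC10 : 0 < C1 := by positivity
  refine ⟨max (2 ^ i0) C1, lt_max_of_lt_right hC10, fun K θ => ?_⟩
  obtain ⟨Bad, hB1, hB2, hB3⟩ := h K θ
  refine ⟨Bad, hB1, hB2, fun m hm hmB N hN hNK ξ => ?_⟩
  have hN' : (1 : ℝ) ≤ N := by exact_mod_cast hN
  have hN0 : (0 : ℝ) < N := by linarith
  have hNe : 1 ≤ (N : ℝ) ^ (1 - u + ε) := Real.one_le_rpow hN' (by linarith)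
  have hpos : (0 : ℝ) < (N : ℝ) ^ (1 - u + ε) := by linarith
  rcases lt_or_ge N (2 ^ i0) with hlt | hge
  · have h1 : ‖sm k N (θ + m * α) ξ‖ ≤ N := by
      unfold sm
      refine (norm_sum_le _ _).trans ?_
      have h2 : ∀ n ∈ Icc 1 N, ‖Pool.Agent.W928.MW.e ((θ + m * α) * (n : ℝ) ^ k + ξ * n)‖ ≤ 1 :=
        fun n _ => (e_norm _).le
      refine (Finset.sum_le_sum h2).trans ?_
      rw [Finset.sum_const, Nat.card_Icc, Nat.add_sub_cancel, nsmul_eq_mul, mul_one]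
    have h2 : (N : ℝ) ≤ 2 ^ i0 := by exact_mod_cast hlt.le
    calc ‖sm k N (θ + m * α) ξ‖ ≤ 2 ^ i0 * 1 := by linarith
      _ ≤ max (2 ^ i0) C1 * (N : ℝ) ^ (1 - u + ε) :=
          mul_le_mul (le_max_left _ _) hNe zero_le_one (by positivity)
  · set i : ℕ := Nat.clog 2 N with hi
    have hiN : N ≤ 2 ^ i := Nat.le_pow_clog (by norm_num) N
    have hi2N : 2 ^ i ≤ 2 * N := by
      rcases Nat.lt_or_ge 1 N with h1 | h1
      · have h2 : 2 ^ (i - 1) < N := Nat.pow_pred_clog_lt_self (by norm_num) h1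
        have h3 : 2 ^ i ≤ 2 * 2 ^ (i - 1) := by
          rw [← pow_succ']
          exact Nat.pow_le_pow_right (by norm_num) (by omega)
        omega
      · have h2 : N = 1 := by omega
        rw [hi, h2]
        simp
    have hi0 : i0 ≤ i := by
      have h1 : 2 ^ i0 ≤ 2 ^ i := hge.trans hiN
      exact (Nat.pow_le_pow_iff_right (by norm_num)).1 h1
    set P : ℝ := (2 : ℝ) ^ i with hP
    have hPc : ((2 ^ i : ℕ) : ℝ) = P := by rw [hP]; push_cast; rfl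
    have hP1 : 1 ≤ P := one_le_pow₀ (by norm_num)
    have hP0 : 0 < P := by linarith
    have hP2 : P ≤ 2 * N := by
      rw [← hPc]
      exact_mod_cast hi2N
    have hcond : P ^ Γ ≤ (2 : ℝ) ^ Γ * K := by
      calc P ^ Γ ≤ (2 * N) ^ Γ := Real.rpow_le_rpow hP0.le hP2 (by linarith)
        _ = (2 : ℝ) ^ Γ * (N : ℝ) ^ Γ := Real.mul_rpow (by norm_num) hN0.le
        _ ≤ (2 : ℝ) ^ Γ * K := mul_le_mul_of_nonneg_left hNK (by positivity)
    have h1 := Pool.Agent.TH181.MW.S_MAX_t k (2 ^ i) N (θ + m * α)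
      (P ^ (1 - u + ε / 2)) Nat.one_le_two_pow hiN
      (hB3 m hm hmB i hi0 hcond) ξ
    rw [hPc] at h1
    have h2 : Real.log P ≤ P ^ (ε / 2) / (ε / 2) := Real.log_le_rpow_div hP0.le (by linarith)
    have h3 : 1 ≤ P ^ (ε / 2) := Real.one_le_rpow hP1 (by linarith)
    have h4 : 4 + 4 * Real.log P ≤ (4 + 8 / ε) * P ^ (ε / 2) := by
      have e1 : P ^ (ε / 2) / (ε / 2) = 2 / ε * P ^ (ε / 2) := by field_simp
      rw [e1] at h2
      have e2 : (4 + 8 / ε) * P ^ (ε / 2) = 4 * P ^ (ε / 2) + 4 * (2 / ε * P ^ (ε / 2)) := by ring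
      rw [e2]
      linarith
    calc ‖sm k N (θ + m * α) ξ‖ ≤ (4 + 4 * Real.log P) * P ^ (1 - u + ε / 2) := h1
      _ ≤ ((4 + 8 / ε) * P ^ (ε / 2)) * P ^ (1 - u + ε / 2) :=
          mul_le_mul_of_nonneg_right h4 (by positivity)
      _ = (4 + 8 / ε) * P ^ (1 - u + ε) := by
          rw [mul_assoc, ← Real.rpow_add hP0]
          congr 2
          ring
      _ ≤ (4 + 8 / ε) * (2 * N) ^ (1 - u + ε) := by
          refine mul_le_mul_of_nonneg_left ?_ (by positivity)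
          exact Real.rpow_le_rpow hP0.le hP2 (by linarith)
      _ = C1 * (N : ℝ) ^ (1 - u + ε) := by
          rw [Real.mul_rpow (by norm_num) hN0.le, hC1]
          ring
      _ ≤ max (2 ^ i0) C1 * (N : ℝ) ^ (1 - u + ε) :=
          mul_le_mul_of_nonneg_right (le_max_right _ _) hpos.le

/-- the exponents of the range of the lengths -/
def Range (k : ℕ) (u Γ : ℝ) : Prop :=
  (4 ≤ k ∧ 0 ≤ u ∧ u ≤ 1 / 4 ∧ Γ = k - 3 + 4 * u) ∨
  (∃ i : ℕ, 1 ≤ i ∧ i < k ∧ 0 ≤ u ∧ (2 ^ i + 2) * u ≤ i ∧ Γ = k - i + (2 ^ i + 2) * u)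

theorem final_all (k : ℕ) (u Γ : ℝ) (hR : Range k u Γ) (α : ℝ) (hα : Irrational α) (hRo : Roth α)
    (ε η : ℝ) (hε : 0 < ε) (hη : 0 < η) :
    ∃ C : ℝ, 0 < C ∧ ∀ (K : ℕ) (θ : ℝ), ∃ Bad ⊆ range K, (Bad.card : ℝ) ≤ η * K ∧
      ∀ m ∈ range K, m ∉ Bad → ∀ N : ℕ, 1 ≤ N → (N : ℝ) ^ Γ ≤ K →
        ∀ ξ : ℝ, ‖sm k N (θ + m * α) ξ‖ ≤ C * (N : ℝ) ^ (1 - u + ε) := by
  rcases hR with ⟨hk, hu0, hu, rfl⟩ | ⟨i, hi, hik, hu0, hu, rfl⟩
  · have hk4 : (4 : ℝ) ≤ k := by exact_mod_cast hk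
    refine final' k α 4 (by norm_num) 3 ((k : ℝ) + 1) _ u (LV_four k (by omega) α hα hRo) ?_ ?_ ?_ ?_
      ε η hε hη
    · push_cast; linarith
    · push_cast; linarith
    · linarith
    · linarith
  · have hik' : (i : ℝ) + 1 ≤ k := by exact_mod_cast hik
    have h2i : (i : ℝ) ≤ 2 ^ i := by exact_mod_cast Nat.lt_two_pow_self.le
    have h2i0 : (0 : ℝ) < 2 ^ i + 2 := by positivity
    have hnn : 0 ≤ ((2 : ℝ) ^ i + 2) * u := mul_nonneg h2i0.le hu0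
    refine final' k α (2 ^ i + 2) (Nat.le_add_left 2 _) _ _ _ u (LV_gen k i (by omega) hi hik.le α hα hRo) ?_ ?_ ?_ ?_
      ε η hε hη
    · push_cast; nlinarith
    · push_cast; nlinarith
    · linarith
    · by_contra hcon
      push Not at hcon
      nlinarith

end Pool.Agent.Run7.h783.MW
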