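import Pool.Agent.Run7.h783.MW.Mom
import Pool.Agent.TH181.MW.Max

/-!
# Few exceptional points, all scales at once (helper783)
-/

set_option autoImplicit false

open Finset Filter Topology

namespace Pool.Agent.Run7.h783.MW

open Pool.Agent.W928.MW (Q sup sm Q_nonneg e_norm)
open Pool.Agent.Run7.h783.PL (Roth)

theorem bad_card (k P K : ℕ) (θ α lam B : ℝ) (hlam : 0 < lam)
    (hB : ∑ m ∈ range K, Q k P (θ + m * α) ≤ B) (S : Finset ℕ) (hS : S ⊆ range K)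
    (hbad : ∀ m ∈ S, ∃ ξ : ℝ, lam < ‖sm k P (θ + m * α) ξ‖) :
    (S.card : ℝ) ≤ (2 * (P : ℝ) + 1) * B / lam ^ 4 := by
  rw [le_div_iff₀ (by positivity)]
  calc (S.card : ℝ) * lam ^ 4 = ∑ m ∈ S, lam ^ 4 := by rw [Finset.sum_const, nsmul_eq_mul]
    _ ≤ ∑ m ∈ S, (2 * (P : ℝ) + 1) * Q k P (θ + m * α) := by
        apply Finset.sum_le_sum
        intro m hm
        obtain ⟨ξ, hξ⟩ := hbad m hm
        exact (pow_le_pow_left₀ hlam.le hξ.le 4).trans (sup k P _ ξ)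
    _ ≤ ∑ m ∈ range K, (2 * (P : ℝ) + 1) * Q k P (θ + m * α) := by
        apply Finset.sum_le_sum_of_subset_of_nonneg hS
        intro m _ _
        exact mul_nonneg (by positivity) (Q_nonneg k P _)
    _ = (2 * (P : ℝ) + 1) * ∑ m ∈ range K, Q k P (θ + m * α) := by rw [Finset.mul_sum]
    _ ≤ (2 * (P : ℝ) + 1) * B := mul_le_mul_of_nonneg_left hB (by positivity)

/-- **Large values on a progression.** -/
theorem large (k : ℕ) (hk : 3 ≤ k) (α : ℝ) (hα : Irrational α) (hRo : Roth α) (ε : ℝ) (hε : 0 < ε) :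
    ∃ C : ℝ, 0 < C ∧ ∀ (N K : ℕ) (θ lam : ℝ), 1 ≤ N → 0 < lam → ∀ S ⊆ range K,
      (∀ m ∈ S, ∃ ξ : ℝ, lam < ‖sm k N (θ + m * α) ξ‖) →
      (S.card : ℝ) ≤ C * (K * (N : ℝ) ^ (3 : ℝ) + (N : ℝ) ^ ((k : ℝ) + 1 + ε)) / lam ^ 4 := by
  obtain ⟨C, hC, hmom⟩ := moment k hk α hα hRo ε hε
  refine ⟨6 + 3 * C, by positivity, fun N K θ lam hN hlam S hS hbad => ?_⟩
  have hN' : (1 : ℝ) ≤ N := by exact_mod_cast hN
  have hN0 : (0 : ℝ) < N := by linarith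
  have h5 := bad_card k N K θ α lam _ hlam (hmom N K θ hN) S hS hbad
  refine h5.trans ?_
  apply div_le_div_of_nonneg_right _ (by positivity)
  have e3 : (N : ℝ) ^ (3 : ℝ) = N * (N : ℝ) ^ 2 := by
    rw [show (3 : ℝ) = ((3 : ℕ) : ℝ) by norm_num, Real.rpow_natCast]
    ring
  have e1 : (N : ℝ) ^ ((k : ℝ) + 1 + ε) = N * (N : ℝ) ^ ((k : ℝ) + ε) := by
    rw [show (k : ℝ) + 1 + ε = 1 + ((k : ℝ) + ε) by ring, Real.rpow_add hN0, Real.rpow_one]
  rw [e3, e1]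
  have h6 : (2 * (N : ℝ) + 1) * (2 * (N : ℝ) ^ 2 * K + C * (N : ℝ) ^ ((k : ℝ) + ε)) ≤
      (3 * N) * (2 * (N : ℝ) ^ 2 * K + C * (N : ℝ) ^ ((k : ℝ) + ε)) :=
    mul_le_mul_of_nonneg_right (by linarith) (by positivity)
  refine h6.trans ?_
  have h7 : 0 ≤ 3 * C * (K * (N * (N : ℝ) ^ 2)) := by positivity
  have h8 : 0 ≤ 6 * ((N : ℝ) * (N : ℝ) ^ ((k : ℝ) + ε)) := by positivity
  nlinarith

theorem dyadic (k : ℕ) (hk : 4 ≤ k) (α : ℝ) (hα : Irrational α) (hRo : Roth α) (ε η : ℝ)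
    (hε : 0 < ε) (hη : 0 < η) :
    ∃ i0 : ℕ, ∀ (K : ℕ) (θ : ℝ), ∃ Bad ⊆ range K, (Bad.card : ℝ) ≤ η * K ∧
      ∀ m ∈ range K, m ∉ Bad → ∀ i : ℕ, i0 ≤ i →
        ((2 : ℝ) ^ i) ^ ((k : ℝ) - 3 + 4 / k) ≤ 2 ^ k * K →
        ∀ ξ : ℝ, ‖sm k (2 ^ i) (θ + m * α) ξ‖ ≤ ((2 : ℝ) ^ i) ^ (1 - 1 / (k : ℝ) + ε / 2) := by
  classical
  obtain ⟨C, hC, hmom⟩ := large k (by omega) α hα hRo ε hε
  have hk4 : (4 : ℝ) ≤ k := by exact_mod_cast hk
  have hk0 : (0 : ℝ) < k := by linarith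
  set C' : ℝ := C * (1 + 2 ^ k) with hC'
  have hC'0 : 0 < C' := by positivity
  set ρ : ℝ := (2 : ℝ) ^ (-ε) with hρ
  have hρ0 : 0 < ρ := by positivity
  have hρ1 : ρ < 1 := Real.rpow_lt_one_of_one_lt_of_neg (by norm_num) (by linarith)
  obtain ⟨i0, hi0⟩ : ∃ i0 : ℕ, C' * (ρ ^ i0 / (1 - ρ)) ≤ η := by
    have h1 : Tendsto (fun i : ℕ => C' * (ρ ^ i / (1 - ρ))) atTop (𝓝 (C' * (0 / (1 - ρ)))) :=
      ((tendsto_pow_atTop_nhds_zero_of_lt_one hρ0.le hρ1).div_const _).const_mul _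
    rw [zero_div, mul_zero] at h1
    obtain ⟨i0, h2⟩ := (h1.eventually (gt_mem_nhds hη)).exists
    exact ⟨i0, h2.le⟩
  refine ⟨i0, fun K θ => ?_⟩
  set lam : ℕ → ℝ := fun i => ((2 : ℝ) ^ i) ^ (1 - 1 / (k : ℝ) + ε / 2) with hlam
  have hlam0 : ∀ i, 0 < lam i := fun i => by
    simp only [hlam]
    positivity
  set B : ℕ → Finset ℕ := fun i => if ((2 : ℝ) ^ i) ^ ((k : ℝ) - 3 + 4 / k) ≤ 2 ^ k * K then
    (range K).filter (fun m : ℕ => ∃ ξ : ℝ, lam i < ‖sm k (2 ^ i) (θ + m * α) ξ‖) else ∅ with hB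
  have hBsub : ∀ i, B i ⊆ range K := by
    intro i
    simp only [hB]
    split_ifs
    · exact Finset.filter_subset _ _
    · exact Finset.empty_subset _
  have hBcard : ∀ i, ((B i).card : ℝ) ≤ C' * K * ρ ^ i := by
    intro i
    by_cases hc : ((2 : ℝ) ^ i) ^ ((k : ℝ) - 3 + 4 / k) ≤ 2 ^ k * K
    · set P : ℝ := (2 : ℝ) ^ i with hP
      have hPc : ((2 ^ i : ℕ) : ℝ) = P := by rw [hP]; push_cast; rfl
      have hP1 : 1 ≤ P := one_le_pow₀ (by norm_num)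
      have hP0 : 0 < P := by linarith
      have h5 := hmom (2 ^ i) K θ (lam i) Nat.one_le_two_pow (hlam0 i) (B i) (hBsub i) (by
        intro m hm
        simp only [hB] at hm
        rw [if_pos hc, mem_filter] at hm
        exact hm.2)
      rw [hPc] at h5
      refine h5.trans ?_
      have h6 : lam i ^ 4 = P ^ (4 - 4 / (k : ℝ) + 2 * ε) := by
        simp only [hlam]
        rw [← Real.rpow_natCast _ 4, ← Real.rpow_mul hP0.le]
        congr 1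
        push_cast
        ring
      rw [h6, div_le_iff₀ (by positivity)]
      have h7 : ρ ^ i = P ^ (-ε) := by
        rw [hρ, hP, ← Real.rpow_natCast (2 : ℝ) i, ← Real.rpow_natCast ((2 : ℝ) ^ (-ε)) i,
          ← Real.rpow_mul (by norm_num), ← Real.rpow_mul (by norm_num)]
        congr 1
        ring
      rw [h7]
      have h10 : C' * K * P ^ (-ε) * P ^ (4 - 4 / (k : ℝ) + 2 * ε) =
          C' * K * P ^ (4 - 4 / (k : ℝ) + ε) := by
        rw [mul_assoc (C' * (K : ℝ)), ← Real.rpow_add hP0]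
        congr 2
        ring
      rw [h10]
      have h11 : 4 / (k : ℝ) ≤ 1 := by
        rw [div_le_one hk0]
        exact hk4
      have h12 : (K : ℝ) * P ^ (3 : ℝ) ≤ K * P ^ (4 - 4 / (k : ℝ) + ε) := by
        refine mul_le_mul_of_nonneg_left ?_ (Nat.cast_nonneg K)
        apply Real.rpow_le_rpow_of_exponent_le hP1
        linarith
      have h13 : P ^ ((k : ℝ) + 1 + ε) ≤ (2 ^ k * K) * P ^ (4 - 4 / (k : ℝ) + ε) := by
        have e : P ^ ((k : ℝ) + 1 + ε) = P ^ ((k : ℝ) - 3 + 4 / k) * P ^ (4 - 4 / (k : ℝ) + ε) := by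
          rw [← Real.rpow_add hP0]
          congr 1
          ring
        rw [e]
        exact mul_le_mul_of_nonneg_right hc (by positivity)
      calc C * (K * P ^ (3 : ℝ) + P ^ ((k : ℝ) + 1 + ε)) ≤
            C * (K * P ^ (4 - 4 / (k : ℝ) + ε) + (2 ^ k * K) * P ^ (4 - 4 / (k : ℝ) + ε)) :=
            mul_le_mul_of_nonneg_left (add_le_add h12 h13) hC.le
        _ = C' * K * P ^ (4 - 4 / (k : ℝ) + ε) := by rw [hC']; ring
    · simp only [hB]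
      rw [if_neg hc, Finset.card_empty]
      push_cast
      positivity
  refine ⟨(Ico i0 (k + K + 1)).biUnion B, ?_, ?_, ?_⟩
  · intro m hm
    obtain ⟨i, _, hi⟩ := Finset.mem_biUnion.1 hm
    exact hBsub i hi
  · have h1 : (((Ico i0 (k + K + 1)).biUnion B).card : ℝ) ≤
        ∑ i ∈ Ico i0 (k + K + 1), ((B i).card : ℝ) := by
      exact_mod_cast Finset.card_biUnion_le
    refine h1.trans ((Finset.sum_le_sum fun i _ => hBcard i).trans ?_)
    rw [← Finset.mul_sum]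
    have h2 := geom_sum_Ico_le_of_lt_one hρ0.le hρ1 (m := i0) (n := k + K + 1)
    calc C' * (K : ℝ) * ∑ i ∈ Ico i0 (k + K + 1), ρ ^ i ≤ C' * (K : ℝ) * (ρ ^ i0 / (1 - ρ)) :=
          mul_le_mul_of_nonneg_left h2 (by positivity)
      _ = (C' * (ρ ^ i0 / (1 - ρ))) * K := by ring
      _ ≤ η * K := mul_le_mul_of_nonneg_right hi0 (Nat.cast_nonneg K)
  · intro m hm hmB i hi hc ξ
    by_contra hcon
    apply hmB
    rw [Finset.mem_biUnion]
    refine ⟨i, ?_, ?_⟩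
    · rw [mem_Ico]
      refine ⟨hi, ?_⟩
      by_contra hlt
      have h1 : k + K + 1 ≤ i := not_lt.1 hlt
      have h2 : (2 : ℝ) ^ k * K < (2 : ℝ) ^ i := by
        have h3 : (K : ℝ) < 2 ^ K := by exact_mod_cast Nat.lt_two_pow_self
        calc (2 : ℝ) ^ k * K < 2 ^ k * 2 ^ K := mul_lt_mul_of_pos_left h3 (by positivity)
          _ = 2 ^ (k + K) := by rw [pow_add]
          _ ≤ 2 ^ i := pow_le_pow_right₀ (by norm_num) (by omega)
      have h4 : (2 : ℝ) ^ i ≤ ((2 : ℝ) ^ i) ^ ((k : ℝ) - 3 + 4 / k) := by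
        have h5 : (1 : ℝ) ≤ (2 : ℝ) ^ i := one_le_pow₀ (by norm_num)
        have h6 : (1 : ℝ) ≤ (k : ℝ) - 3 + 4 / k := by
          have : 0 < 4 / (k : ℝ) := by positivity
          linarith
        calc (2 : ℝ) ^ i = ((2 : ℝ) ^ i) ^ (1 : ℝ) := (Real.rpow_one _).symm
          _ ≤ _ := Real.rpow_le_rpow_of_exponent_le h5 h6
      linarith
    · simp only [hB]
      rw [if_pos hc, mem_filter]
      exact ⟨hm, ξ, not_le.1 hcon⟩

/-- **Main theorem.** -/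
theorem final (k : ℕ) (hk : 4 ≤ k) (α : ℝ) (hα : Irrational α) (hRo : Roth α) (ε η : ℝ)
    (hε : 0 < ε) (hη : 0 < η) :
    ∃ C : ℝ, 0 < C ∧ ∀ (K : ℕ) (θ : ℝ), ∃ Bad ⊆ range K, (Bad.card : ℝ) ≤ η * K ∧
      ∀ m ∈ range K, m ∉ Bad → ∀ N : ℕ, 1 ≤ N → (N : ℝ) ^ ((k : ℝ) - 3 + 4 / k) ≤ K →
        ∀ ξ : ℝ, ‖sm k N (θ + m * α) ξ‖ ≤ C * (N : ℝ) ^ (1 - 1 / (k : ℝ) + ε) := by
  classical
  obtain ⟨i0, h⟩ := dyadic k hk α hα hRo ε η hε hη
  have hk4 : (4 : ℝ) ≤ k := by exact_mod_cast hk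
  have hk0 : (0 : ℝ) < k := by linarith
  have hki : 1 / (k : ℝ) ≤ 1 / 4 := one_div_le_one_div_of_le (by norm_num) hk4
  have h4k : 4 / (k : ℝ) ≤ 1 := by
    rw [div_le_one hk0]
    exact hk4
  have h4k0 : 0 < 4 / (k : ℝ) := by positivity
  set C1 : ℝ := (4 + 8 / ε) * 2 ^ (1 - 1 / (k : ℝ) + ε) with hC1
  have hC10 : 0 < C1 := by positivity
  refine ⟨max (2 ^ i0) C1, lt_max_of_lt_right hC10, fun K θ => ?_⟩
  obtain ⟨Bad, hB1, hB2, hB3⟩ := h K θ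
  refine ⟨Bad, hB1, hB2, fun m hm hmB N hN hNK ξ => ?_⟩
  have hN' : (1 : ℝ) ≤ N := by exact_mod_cast hN
  have hN0 : (0 : ℝ) < N := by linarith
  have hNe : 1 ≤ (N : ℝ) ^ (1 - 1 / (k : ℝ) + ε) := Real.one_le_rpow hN' (by linarith)
  have hpos : (0 : ℝ) < (N : ℝ) ^ (1 - 1 / (k : ℝ) + ε) := by linarith
  rcases lt_or_ge N (2 ^ i0) with hlt | hge
  · have h1 : ‖sm k N (θ + m * α) ξ‖ ≤ N := by
      unfold sm
      refine (norm_sum_le _ _).trans ?_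
      have h2 : ∀ n ∈ Icc 1 N, ‖Pool.Agent.W928.MW.e ((θ + m * α) * (n : ℝ) ^ k + ξ * n)‖ ≤ 1 :=
        fun n _ => (e_norm _).le
      refine (Finset.sum_le_sum h2).trans ?_
      rw [Finset.sum_const, Nat.card_Icc, Nat.add_sub_cancel, nsmul_eq_mul, mul_one]
    have h2 : (N : ℝ) ≤ 2 ^ i0 := by exact_mod_cast hlt.le
    calc ‖sm k N (θ + m * α) ξ‖ ≤ 2 ^ i0 * 1 := by linarith
      _ ≤ max (2 ^ i0) C1 * (N : ℝ) ^ (1 - 1 / (k : ℝ) + ε) :=
          mul_le_mul (le_max_left _ _) hNe zero_le_one (by positivity)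
  · set i : ℕ := Nat.clog 2 N with hi
    have hiN : N ≤ 2 ^ i := Nat.le_pow_clog (by norm_num) N
    have hi2N : 2 ^ i ≤ 2 * N := by
      rcases Nat.lt_or_ge 1 N with h1 | h1
      · have h2 : 2 ^ (i - 1) < N := Nat.pow_pred_clog_lt_self (by norm_num) h1
        have h3 : 2 ^ i ≤ 2 * 2 ^ (i - 1) := by
          rw [← pow_succ']
          exact Nat.pow_le_pow_right (by norm_num) (by omega)
        omega
      · have h2 : N = 1 := by omega
        rw [hi, h2]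
        simp
    have hi0 : i0 ≤ i := by
      have h1 : 2 ^ i0 ≤ 2 ^ i := hge.trans hiN
      exact (Nat.pow_le_pow_iff_right (by norm_num)).1 h1
    set P : ℝ := (2 : ℝ) ^ i with hP
    have hPc : ((2 ^ i : ℕ) : ℝ) = P := by rw [hP]; push_cast; rfl
    have hP1 : 1 ≤ P := one_le_pow₀ (by norm_num)
    have hP0 : 0 < P := by linarith
    have hP2 : P ≤ 2 * N := by
      rw [← hPc]
      exact_mod_cast hi2N
    have hcond : P ^ ((k : ℝ) - 3 + 4 / k) ≤ 2 ^ k * K := by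
      calc P ^ ((k : ℝ) - 3 + 4 / k) ≤ (2 * N) ^ ((k : ℝ) - 3 + 4 / k) :=
            Real.rpow_le_rpow hP0.le hP2 (by linarith)
        _ = 2 ^ ((k : ℝ) - 3 + 4 / k) * (N : ℝ) ^ ((k : ℝ) - 3 + 4 / k) :=
            Real.mul_rpow (by norm_num) hN0.le
        _ ≤ 2 ^ (k : ℝ) * K := by
            refine mul_le_mul ?_ hNK (by positivity) (by positivity)
            apply Real.rpow_le_rpow_of_exponent_le (by norm_num)
            linarith
        _ = 2 ^ k * K := by rw [Real.rpow_natCast]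
    have h1 := Pool.Agent.TH181.MW.S_MAX_t k (2 ^ i) N (θ + m * α)
      (P ^ (1 - 1 / (k : ℝ) + ε / 2)) Nat.one_le_two_pow hiN
      (hB3 m hm hmB i hi0 hcond) ξ
    rw [hPc] at h1
    have h2 : Real.log P ≤ P ^ (ε / 2) / (ε / 2) := Real.log_le_rpow_div hP0.le (by linarith)
    have h3 : 1 ≤ P ^ (ε / 2) := Real.one_le_rpow hP1 (by linarith)
    have h4 : 4 + 4 * Real.log P ≤ (4 + 8 / ε) * P ^ (ε / 2) := by
      have e1 : P ^ (ε / 2) / (ε / 2) = 2 / ε * P ^ (ε / 2) := by field_simp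
      rw [e1] at h2
      have e2 : (4 + 8 / ε) * P ^ (ε / 2) = 4 * P ^ (ε / 2) + 4 * (2 / ε * P ^ (ε / 2)) := by ring
      rw [e2]
      linarith
    calc ‖sm k N (θ + m * α) ξ‖ ≤ (4 + 4 * Real.log P) * P ^ (1 - 1 / (k : ℝ) + ε / 2) := h1
      _ ≤ ((4 + 8 / ε) * P ^ (ε / 2)) * P ^ (1 - 1 / (k : ℝ) + ε / 2) :=
          mul_le_mul_of_nonneg_right h4 (by positivity)
      _ = (4 + 8 / ε) * P ^ (1 - 1 / (k : ℝ) + ε) := by
          rw [mul_assoc, ← Real.rpow_add hP0]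
          congr 2
          ring
      _ ≤ (4 + 8 / ε) * (2 * N) ^ (1 - 1 / (k : ℝ) + ε) := by
          refine mul_le_mul_of_nonneg_left ?_ (by positivity)
          exact Real.rpow_le_rpow hP0.le hP2 (by linarith)
      _ = C1 * (N : ℝ) ^ (1 - 1 / (k : ℝ) + ε) := by
          rw [Real.mul_rpow (by norm_num) hN0.le, hC1]
          ring
      _ ≤ max (2 ^ i0) C1 * (N : ℝ) ^ (1 - 1 / (k : ℝ) + ε) :=
          mul_le_mul_of_nonneg_right (le_max_right _ _) hpos.le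

end Pool.Agent.Run7.h783.MW
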