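import Pool.Agent.Run7.h783.MW.Exc
import Pool.Agent.Run7.h556.MW.Exp

/-!
# Moments of higher order over the points `θ + m α` (helper783)
-/

set_option autoImplicit false

open Finset

namespace Pool.Agent.Run7.h783.MW

open Pool.Agent.Run7.h556.MW (PR De Q_cos int_cos_cos J_eq De_le Mv Mv_all)
open Pool.Agent.TH181.MW (J int_Q)
open Pool.Agent.W928.MW (sm)
open Pool.Agent.N965.LN (dn)
open Pool.Agent.Run7.h783.PL (Roth base)

theorem Q_cont (s k N : ℕ) : Continuous (fun t : ℝ => Pool.Agent.TH181.MW.Q s k N t) := by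
  simp_rw [Q_cos]
  fun_prop

theorem Q_nn (s k N : ℕ) (t : ℝ) : 0 ≤ Pool.Agent.TH181.MW.Q s k N t := by
  unfold Pool.Agent.TH181.MW.Q
  positivity

theorem rep_le (s k N : ℕ) (h : ℤ) :
    (((PR s N).filter (fun z => De s k z = h)).card : ℝ) ≤ 2 * J s k N := by
  classical
  have h1 : ∫ t in (0 : ℝ)..1, Pool.Agent.TH181.MW.Q s k N t * Real.cos (2 * Real.pi * (t * (h : ℝ))) =
      ∑ z ∈ PR s N, ((if De s k z - h = 0 then (1 : ℝ) else 0) +
        (if De s k z + h = 0 then 1 else 0)) / 2 := by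
    have h2 : ∀ t : ℝ, Pool.Agent.TH181.MW.Q s k N t * Real.cos (2 * Real.pi * (t * (h : ℝ))) =
        ∑ z ∈ PR s N, Real.cos (2 * Real.pi * (t * ((De s k z : ℤ) : ℝ))) *
          Real.cos (2 * Real.pi * (t * (h : ℝ))) := by
      intro t
      rw [Q_cos, sum_mul]
    simp_rw [h2]
    rw [intervalIntegral.integral_finsetSum]
    · apply sum_congr rfl
      intro z _
      rw [int_cos_cos]
    · intro z _
      apply Continuous.intervalIntegrable
      fun_prop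
  have h3 : ∫ t in (0 : ℝ)..1, Pool.Agent.TH181.MW.Q s k N t * Real.cos (2 * Real.pi * (t * (h : ℝ))) ≤
      ∫ t in (0 : ℝ)..1, Pool.Agent.TH181.MW.Q s k N t := by
    have hc := Q_cont s k N
    apply intervalIntegral.integral_mono_on (by norm_num)
    · apply Continuous.intervalIntegrable
      fun_prop
    · exact hc.intervalIntegrable _ _
    · intro t _
      calc Pool.Agent.TH181.MW.Q s k N t * Real.cos (2 * Real.pi * (t * (h : ℝ))) ≤
            Pool.Agent.TH181.MW.Q s k N t * 1 :=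
            mul_le_mul_of_nonneg_left (Real.cos_le_one _) (Q_nn s k N t)
        _ = _ := mul_one _
  have h4 := int_Q s k N 0 1
  simp only [Int.cast_zero, Int.cast_one, sub_zero, one_mul] at h4
  rw [h1, h4, ← sum_div] at h3
  have h5 : (((PR s N).filter (fun z => De s k z = h)).card : ℝ) ≤
      ∑ z ∈ PR s N, ((if De s k z - h = 0 then (1 : ℝ) else 0) +
        (if De s k z + h = 0 then 1 else 0)) := by
    rw [Finset.card_filter]
    push_cast
    apply Finset.sum_le_sum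
    intro z _
    have e : (De s k z - h = 0) ↔ De s k z = h := sub_eq_zero
    simp only [e]
    have : (0 : ℝ) ≤ if De s k z + h = 0 then 1 else 0 := by split_ifs <;> norm_num
    linarith
  linarith

theorem moment_gen (s k N K : ℕ) (θ α : ℝ) (hα : Irrational α) :
    ∑ m ∈ range K, Pool.Agent.TH181.MW.Q s k N (θ + m * α) ≤
      (J s k N : ℝ) * (K + 4 * ∑ n ∈ Icc 1 (s * N ^ k), 1 / dn ((n : ℝ) * α)) := by
  classical
  have h1 : ∑ m ∈ range K, Pool.Agent.TH181.MW.Q s k N (θ + m * α) ≤ ∑ z ∈ PR s N, Ph α K (De s k z) := by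
    simp_rw [Q_cos]
    rw [Finset.sum_comm]
    apply Finset.sum_le_sum
    intro z _
    unfold Ph
    split_ifs with h0
    · calc ∑ m ∈ range K, Real.cos (2 * Real.pi * ((θ + m * α) * ((De s k z : ℤ) : ℝ))) ≤
            ∑ m ∈ range K, (1 : ℝ) := Finset.sum_le_sum (fun m _ => Real.cos_le_one _)
        _ = K := by rw [Finset.sum_const, Finset.card_range, nsmul_eq_mul, mul_one]
    · refine le_trans (le_of_eq ?_) (cos_sum θ α K _ (dn_pos α hα _ h0))
      refine Finset.sum_congr rfl fun m _ => ?_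
      congr 1
      ring
  refine h1.trans ?_
  rw [← Finset.sum_filter_add_sum_filter_not (PR s N) (fun z => De s k z = 0), mul_add]
  refine add_le_add ?_ ?_
  · rw [J_eq, ← nsmul_eq_mul, ← Finset.sum_const]
    refine Finset.sum_le_sum fun z hz => ?_
    rw [mem_filter] at hz
    unfold Ph
    rw [if_pos hz.2]
  · set L : ℕ := s * N ^ k with hL
    set I : Finset ℤ := (Icc (-(L : ℤ)) L).filter (fun h => h ≠ 0) with hI
    have hmaps : ∀ z ∈ (PR s N).filter (fun z => ¬ De s k z = 0), De s k z ∈ I := by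
      intro z hz
      rw [mem_filter] at hz
      have h1 : (De s k z).natAbs ≤ L := De_le s k N z hz.1
      rw [hI, mem_filter, mem_Icc]
      refine ⟨?_, hz.2⟩
      omega
    rw [← Finset.sum_fiberwise_of_maps_to hmaps]
    have h2 : ∀ h ∈ I, ∑ z ∈ ((PR s N).filter (fun z => ¬ De s k z = 0)).filter (fun z => De s k z = h),
        Ph α K (De s k z) ≤ (2 * J s k N) * Ph α K h := by
      intro h _
      have h3 : ∑ z ∈ ((PR s N).filter (fun z => ¬ De s k z = 0)).filter (fun z => De s k z = h),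
          Ph α K (De s k z) =
          ∑ z ∈ ((PR s N).filter (fun z => ¬ De s k z = 0)).filter (fun z => De s k z = h), Ph α K h := by
        refine Finset.sum_congr rfl fun z hz => ?_
        rw [mem_filter] at hz
        rw [hz.2]
      rw [h3, Finset.sum_const, nsmul_eq_mul]
      refine mul_le_mul_of_nonneg_right (le_trans ?_ (rep_le s k N h)) (Ph_nonneg _ _ _)
      have h4 : (((PR s N).filter (fun z => ¬ De s k z = 0)).filter (fun z => De s k z = h)).card ≤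
          ((PR s N).filter (fun z => De s k z = h)).card := by
        refine Finset.card_le_card ?_
        intro z hz
        rw [mem_filter, mem_filter] at hz
        rw [mem_filter]
        exact ⟨hz.1.1, hz.2⟩
      exact_mod_cast h4
    refine (Finset.sum_le_sum h2).trans ?_
    rw [← Finset.mul_sum]
    have h5 : ∑ h ∈ I, Ph α K h = ∑ h ∈ I, 1 / dn (α * h) := by
      refine Finset.sum_congr rfl fun h hh' => ?_
      rw [hI, mem_filter] at hh'
      unfold Ph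
      rw [if_neg hh'.2]
    have h6 := sum_Icc_int (fun h : ℤ => 1 / dn (α * h)) (fun h => by
      push_cast
      rw [mul_neg, dn_neg]) L
    rw [h5, hI, h6]
    have h7 : ∑ n ∈ Icc 1 L, 1 / dn (α * ((n : ℤ) : ℝ)) = ∑ n ∈ Icc 1 L, 1 / dn ((n : ℝ) * α) := by
      refine Finset.sum_congr rfl fun n _ => ?_
      push_cast
      rw [mul_comm]
    rw [h7]
    apply le_of_eq
    ring

/-- large values over the progression: `#{m < K : sup_ξ |S| > λ} ≤ C (K N ^ a + N ^ b) N ^ δ / λ ^ p` -/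
def LV (k : ℕ) (α : ℝ) (p : ℕ) (a b : ℝ) : Prop :=
  ∀ δ : ℝ, 0 < δ → ∃ C : ℝ, 0 < C ∧ ∀ (N K : ℕ) (θ lam : ℝ), 1 ≤ N → 0 < lam → ∀ S ⊆ range K,
    (∀ m ∈ S, ∃ ξ : ℝ, lam < ‖sm k N (θ + m * α) ξ‖) →
    (S.card : ℝ) ≤ C * (K * (N : ℝ) ^ (a + δ) + (N : ℝ) ^ (b + δ)) / lam ^ p

theorem LV_four (k : ℕ) (hk : 3 ≤ k) (α : ℝ) (hα : Irrational α) (hRo : Roth α) :
    LV k α 4 3 ((k : ℝ) + 1) := by
  intro δ hδ
  obtain ⟨C, hC, h⟩ := large k hk α hα hRo δ hδ
  refine ⟨C, hC, fun N K θ lam hN hlam S hS hbad => (h N K θ lam hN hlam S hS hbad).trans ?_⟩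
  have hN' : (1 : ℝ) ≤ N := by exact_mod_cast hN
  apply div_le_div_of_nonneg_right _ (by positivity)
  apply mul_le_mul_of_nonneg_left _ hC.le
  refine add_le_add (mul_le_mul_of_nonneg_left ?_ (Nat.cast_nonneg K)) le_rfl
  exact Real.rpow_le_rpow_of_exponent_le hN' (by linarith)

theorem LV_gen (k i : ℕ) (hk : 2 ≤ k) (hi : 1 ≤ i) (hik : i ≤ k) (α : ℝ) (hα : Irrational α)
    (hRo : Roth α) :
    LV k α (2 ^ i + 2) ((2 : ℝ) ^ i + 2 - i) ((2 : ℝ) ^ i + 2 - i + k) := by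
  intro δ hδ
  have hk0 : (0 : ℝ) < k := by exact_mod_cast (by omega : 0 < k)
  set s : ℕ := 2 ^ (i - 1) + 1 with hs
  have e1 : 2 ^ i = 2 * 2 ^ (i - 1) := by
    rw [← pow_succ']; congr 1; omega
  have e2 : 2 ^ i + 2 = 2 * s := by rw [hs, e1]; ring
  have e2r : (2 : ℝ) ^ i + 2 = 2 * (s : ℝ) := by exact_mod_cast e2
  have hs1 : 1 ≤ s := by omega
  obtain ⟨C1, hC1, h1⟩ := Mv_all k i hk hi hik (δ / 2) (by linarith)
  set τ : ℝ := δ / (2 * k) with hτ
  have hτ0 : 0 < τ := by positivity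
  obtain ⟨C2, hC2, hb⟩ := base α hRo τ hτ0
  refine ⟨((s : ℝ) + 1) * (C1 * (1 + 4 * (C2 * (s : ℝ) ^ (1 + τ)))), by positivity,
    fun N K θ lam hN hlam S hS hbad => ?_⟩
  have hN' : (1 : ℝ) ≤ N := by exact_mod_cast hN
  have hN0 : (0 : ℝ) < N := by linarith
  rw [le_div_iff₀ (by positivity), e2]
  have hL1 : 1 ≤ s * N ^ k := Nat.one_le_iff_ne_zero.2 (by positivity)
  have h2 : ∑ n ∈ Icc 1 (s * N ^ k), 1 / dn ((n : ℝ) * α) ≤
      C2 * (s : ℝ) ^ (1 + τ) * (N : ℝ) ^ ((k : ℝ) + δ / 2) := by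
    refine (hb _ hL1).trans (le_of_eq ?_)
    push_cast
    rw [Real.mul_rpow (by positivity) (by positivity), ← Real.rpow_natCast (N : ℝ) k,
      ← Real.rpow_mul hN0.le]
    have e : (k : ℝ) * (1 + τ) = (k : ℝ) + δ / 2 := by
      rw [hτ]
      field_simp
    rw [e]
    ring
  have hJ : (J s k N : ℝ) ≤ C1 * (N : ℝ) ^ (2 * (s : ℝ) - ((i : ℝ) + 1) + δ / 2) := h1 N hN
  have h3 : (K : ℝ) + 4 * ∑ n ∈ Icc 1 (s * N ^ k), 1 / dn ((n : ℝ) * α) ≤
      (1 + 4 * (C2 * (s : ℝ) ^ (1 + τ))) * (((K : ℝ) + (N : ℝ) ^ (k : ℝ)) * (N : ℝ) ^ (δ / 2)) := by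
    have g1 : 1 ≤ (N : ℝ) ^ (δ / 2) := Real.one_le_rpow hN' (by linarith)
    have g2 : (N : ℝ) ^ ((k : ℝ) + δ / 2) = (N : ℝ) ^ (k : ℝ) * (N : ℝ) ^ (δ / 2) := Real.rpow_add hN0 _ _
    rw [g2] at h2
    set A : ℝ := C2 * (s : ℝ) ^ (1 + τ) with hA
    have hA0 : 0 < A := by positivity
    have g3 : (K : ℝ) ≤ K * (N : ℝ) ^ (δ / 2) := le_mul_of_one_le_right (Nat.cast_nonneg K) g1
    have g4 : 0 ≤ 4 * A * (K * (N : ℝ) ^ (δ / 2)) := by positivity
    have g5 : 0 ≤ (N : ℝ) ^ (k : ℝ) * (N : ℝ) ^ (δ / 2) := by positivity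
    nlinarith
  have h4 : (s : ℝ) * N + 1 ≤ ((s : ℝ) + 1) * N := by nlinarith
  calc (S.card : ℝ) * lam ^ (2 * s) = ∑ m ∈ S, lam ^ (2 * s) := by rw [Finset.sum_const, nsmul_eq_mul]
    _ ≤ ∑ m ∈ S, ((s : ℝ) * (N : ℝ) + 1) * Pool.Agent.TH181.MW.Q s k N (θ + m * α) := by
        apply Finset.sum_le_sum
        intro m hm
        obtain ⟨ξ, hξ⟩ := hbad m hm
        exact (pow_le_pow_left₀ hlam.le hξ.le (2 * s)).trans (Pool.Agent.TH181.MW.sup s k N _ ξ)
    _ ≤ ∑ m ∈ range K, ((s : ℝ) * (N : ℝ) + 1) * Pool.Agent.TH181.MW.Q s k N (θ + m * α) := by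
        apply Finset.sum_le_sum_of_subset_of_nonneg hS
        intro m _ _
        exact mul_nonneg (by positivity) (Q_nn s k N _)
    _ = ((s : ℝ) * (N : ℝ) + 1) * ∑ m ∈ range K, Pool.Agent.TH181.MW.Q s k N (θ + m * α) := by
        rw [Finset.mul_sum]
    _ ≤ (((s : ℝ) + 1) * N) * ((C1 * (N : ℝ) ^ (2 * (s : ℝ) - ((i : ℝ) + 1) + δ / 2)) *
          ((1 + 4 * (C2 * (s : ℝ) ^ (1 + τ))) * (((K : ℝ) + (N : ℝ) ^ (k : ℝ)) * (N : ℝ) ^ (δ / 2)))) := by
        refine mul_le_mul h4 ((moment_gen s k N K θ α hα).trans ?_)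
          (Finset.sum_nonneg fun m _ => Q_nn s k N _) (by positivity)
        refine mul_le_mul hJ h3 ?_ (by positivity)
        refine add_nonneg (Nat.cast_nonneg K) (mul_nonneg (by norm_num) ?_)
        exact Finset.sum_nonneg fun n _ => div_nonneg zero_le_one (abs_nonneg _)
    _ = ((s : ℝ) + 1) * (C1 * (1 + 4 * (C2 * (s : ℝ) ^ (1 + τ)))) *
          (K * (N : ℝ) ^ ((2 : ℝ) ^ i + 2 - i + δ) + (N : ℝ) ^ ((2 : ℝ) ^ i + 2 - i + k + δ)) := by
        have g1 : (N : ℝ) ^ ((2 : ℝ) ^ i + 2 - i + δ) = N * ((N : ℝ) ^ (2 * (s : ℝ) - ((i : ℝ) + 1) + δ / 2) *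
            (N : ℝ) ^ (δ / 2)) := by
          rw [← Real.rpow_add hN0, e2r]
          nth_rewrite 2 [← Real.rpow_one (N : ℝ)]
          rw [← Real.rpow_add hN0]
          congr 1
          ring
        have g2 : (N : ℝ) ^ ((2 : ℝ) ^ i + 2 - i + k + δ) = (N : ℝ) ^ (k : ℝ) *
            (N : ℝ) ^ ((2 : ℝ) ^ i + 2 - i + δ) := by
          rw [← Real.rpow_add hN0]
          congr 1
          ring
        rw [g2, g1]
        ring

end Pool.Agent.Run7.h783.MW
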