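import Pool.Agent.Run7.h556.MW.Six
import Pool.Agent.W928.MW.Trans2
import Pool.Agent.Run7.h783.PL.Avg

/-!
# The number of representations by the difference form in three variables (helper783)
-/

set_option autoImplicit false

open Finset

namespace Pool.Agent.Run7.h783.MW

open Pool.Agent.Run7.h556.MW (box mem_box li fk deg_card dvd_one dvd_two w_le)
open Pool.Agent.W928.MW (prs dl)

/-- the difference form -/
def hh (k : ℕ) (v : ℤ × ℤ × ℤ) : ℤ := li v ^ k - fk k v

open Polynomial in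
/-- the polynomial in the last variable -/
theorem poly_card (k : ℕ) (hk : 3 ≤ k) (u w h : ℤ) (hu : u ≠ 0) (hw : w ≠ 0) (S : Finset ℤ)
    (hS : ∀ c ∈ S, (c + u + w) ^ k - ((c + u) ^ k + (c + w) ^ k - c ^ k) = h) : S.card ≤ k := by
  classical
  set P : ℤ[X] := (X + C (u + w)) ^ k - ((X + C u) ^ k + (X + C w) ^ k - X ^ k) - C h with hP
  have hdeg : P.natDegree ≤ k := by
    have hX : ∀ r : ℤ, ((X + C r : ℤ[X]) ^ k).natDegree ≤ k := by
      intro r
      refine natDegree_pow_le.trans ?_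
      rw [natDegree_X_add_C, mul_one]
    rw [hP]
    refine (natDegree_sub_le _ _).trans (max_le ?_ ?_)
    · refine (natDegree_sub_le _ _).trans (max_le (hX _) ?_)
      refine (natDegree_sub_le _ _).trans (max_le ?_ (natDegree_X_pow_le k))
      exact (natDegree_add_le _ _).trans (max_le (hX _) (hX _))
    · rw [natDegree_C]; omega
  have hne : P ≠ 0 := by
    intro h0
    have h1 : P.coeff (k - 2) = 0 := by rw [h0, coeff_zero]
    have e1 : k - (k - 2) = 2 := by omega
    rw [hP, coeff_sub, coeff_sub, coeff_sub, coeff_add, coeff_X_pow, if_neg (by omega), coeff_C,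
      if_neg (by omega), coeff_X_add_C_pow, coeff_X_add_C_pow, coeff_X_add_C_pow, e1] at h1
    have hc : (0 : ℤ) < ((k.choose (k - 2) : ℕ) : ℤ) := by
      exact_mod_cast Nat.choose_pos (by omega : k - 2 ≤ k)
    have h2 : 2 * (u * w) * ((k.choose (k - 2) : ℕ) : ℤ) = 0 := by
      linarith
    have h3 : 2 * (u * w) ≠ 0 := by
      have := mul_ne_zero hu hw
      omega
    exact (mul_ne_zero h3 hc.ne') h2
  have hsub : S ⊆ P.roots.toFinset := by
    intro c hc
    rw [Multiset.mem_toFinset, mem_roots hne, IsRoot.def, hP]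
    simp only [eval_sub, eval_add, eval_pow, eval_X, eval_C]
    have := hS c hc
    have e : c + (u + w) = c + u + w := by ring
    rw [e]
    linarith
  calc S.card ≤ P.roots.toFinset.card := Finset.card_le_card hsub
    _ ≤ Multiset.card P.roots := Multiset.toFinset_card_le _
    _ ≤ P.natDegree := card_roots' P
    _ ≤ k := hdeg

/-- few representations -/
theorem rep (k N D : ℕ) (hk : 3 ≤ k) (h : ℤ) (hne : h ≠ 0) (hD : h.natAbs.divisors.card ≤ D) :
    ((box N).filter (fun v => hh k v = h)).card ≤ k * (2 * D) ^ 2 := by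
  classical
  set S' : Finset ℤ := (h.natAbs.divisors).image (fun d : ℕ => (d : ℤ)) ∪
    (h.natAbs.divisors).image (fun d : ℕ => -(d : ℤ)) with hS'
  have hS'card : S'.card ≤ 2 * D := by
    have h2 := card_union_le ((h.natAbs.divisors).image (fun d : ℕ => (d : ℤ)))
      ((h.natAbs.divisors).image (fun d : ℕ => -(d : ℤ)))
    have h3 := card_image_le (s := h.natAbs.divisors) (f := fun d : ℕ => (d : ℤ))
    have h4 := card_image_le (s := h.natAbs.divisors) (f := fun d : ℕ => -(d : ℤ))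
    rw [hS']
    omega
  have hmem : ∀ g : ℤ, g ∣ h → g ∈ S' := by
    intro g hg
    have h6 : g.natAbs ∈ h.natAbs.divisors := by
      rw [Nat.mem_divisors]
      exact ⟨Int.natAbs_dvd_natAbs.mpr hg, Int.natAbs_ne_zero.mpr hne⟩
    rw [hS', mem_union, mem_image, mem_image]
    rcases le_total 0 g with h0 | h0
    · left; exact ⟨_, h6, by omega⟩
    · right; exact ⟨_, h6, by omega⟩
  set T := (box N).filter (fun v => hh k v = h) with hT
  set f : ℤ × ℤ × ℤ → ℤ × ℤ := fun v => (v.1 - v.2.2, v.2.1 - v.2.2) with hf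
  have h1 : T.card ≤ k * (T.image f).card := by
    refine Finset.card_le_mul_card_image T k ?_
    rintro ⟨u, w⟩ huw
    obtain ⟨v0, hv0, hfv0⟩ := Finset.mem_image.1 huw
    have hcase : ∀ v ∈ T, f v = (u, w) → u ≠ 0 ∧ w ≠ 0 ∧
        (v.2.2 + u + w) ^ k - ((v.2.2 + u) ^ k + (v.2.2 + w) ^ k - v.2.2 ^ k) = h := by
      intro v hv hfv
      rw [hT, mem_filter] at hv
      obtain ⟨a, b, c⟩ := v
      simp only [hf, Prod.mk.injEq] at hfv
      obtain ⟨g1, g2⟩ := hfv
      have g3 := hv.2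
      simp only [hh, li, fk] at g3
      have ea : a = c + u := by linarith
      have eb : b = c + w := by linarith
      subst ea
      subst eb
      have e : c + u + (c + w) - c = c + u + w := by ring
      rw [e] at g3
      refine ⟨?_, ?_, g3⟩
      · rintro rfl
        apply hne
        rw [← g3]
        ring
      · rintro rfl
        apply hne
        rw [← g3]
        ring
    obtain ⟨hu, hw, _⟩ := hcase v0 hv0 hfv0
    have h2 : (T.filter (fun v => f v = (u, w))).card =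
        ((T.filter (fun v => f v = (u, w))).image (fun v => v.2.2)).card := by
      rw [Finset.card_image_of_injOn]
      intro v hv v' hv' heq
      rw [Finset.mem_coe, mem_filter] at hv hv'
      obtain ⟨a, b, c⟩ := v
      obtain ⟨a', b', c'⟩ := v'
      have g1 := hv.2
      have g2 := hv'.2
      simp only [hf, Prod.mk.injEq] at g1 g2 heq ⊢
      refine ⟨by omega, by omega, by omega⟩
    rw [h2]
    apply poly_card k hk u w h hu hw
    intro c hc
    obtain ⟨v, hv, rfl⟩ := Finset.mem_image.1 hc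
    rw [mem_filter] at hv
    exact (hcase v hv.1 hv.2).2.2
  have h2 : (T.image f).card ≤ (2 * D) ^ 2 := by
    have h3 : T.image f ⊆ S' ×ˢ S' := by
      intro y hy
      obtain ⟨v, hv, rfl⟩ := Finset.mem_image.1 hy
      rw [hT, mem_filter] at hv
      obtain ⟨a, b, c⟩ := v
      have g3 := hv.2
      simp only [hh, li, fk] at g3
      rw [mem_product]
      refine ⟨hmem _ ?_, hmem _ ?_⟩
      · rw [← g3]; exact dvd_one k a b c
      · rw [← g3]; exact dvd_two k a b c
    refine (Finset.card_le_card h3).trans ?_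
    rw [card_product, sq]
    exact Nat.mul_le_mul hS'card hS'card
  exact h1.trans (Nat.mul_le_mul_left k h2)

/-- from the fourth moment to three variables -/
theorem to_box (k N : ℕ) (Φ : ℤ → ℝ) (hΦ : ∀ h, 0 ≤ Φ h) :
    ∑ m ∈ range (2 * N + 1), ∑ z ∈ prs N m, ∑ w ∈ prs N m, Φ (dl k z w) ≤
      ∑ v ∈ box N, Φ (hh k v) := by
  classical
  have h3 : ∑ m ∈ range (2 * N + 1), ∑ z ∈ prs N m, ∑ w ∈ prs N m, Φ (dl k z w) =
      ∑ w ∈ (Icc 1 N) ×ˢ (Icc 1 N), ∑ z ∈ prs N (w.1 + w.2), Φ (dl k z w) := by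
    rw [← Finset.sum_fiberwise_of_maps_to (s := (Icc 1 N) ×ˢ (Icc 1 N)) (t := range (2 * N + 1))
      (g := fun z : ℕ × ℕ => z.1 + z.2)]
    · apply Finset.sum_congr rfl
      intro m _
      rw [Finset.sum_comm]
      apply Finset.sum_congr rfl
      intro w hw
      unfold prs at hw
      rw [Finset.mem_filter] at hw
      rw [hw.2]
    · intro z hz
      rw [Finset.mem_product, Finset.mem_Icc, Finset.mem_Icc] at hz
      rw [Finset.mem_range]
      omega
  rw [h3, Finset.sum_sigma']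
  set T : Finset ((_ : ℕ × ℕ) × (ℕ × ℕ)) := ((Icc 1 N) ×ˢ (Icc 1 N)).sigma (fun w => prs N (w.1 + w.2))
    with hT
  set g : ((_ : ℕ × ℕ) × (ℕ × ℕ)) → ℤ × ℤ × ℤ :=
    fun p => ((p.1.1 : ℤ), (p.1.2 : ℤ), (p.2.1 : ℤ)) with hg
  have hprop : ∀ p ∈ T, (1 ≤ p.1.1 ∧ p.1.1 ≤ N) ∧ (1 ≤ p.1.2 ∧ p.1.2 ≤ N) ∧ (1 ≤ p.2.1 ∧ p.2.1 ≤ N) ∧
      p.2.1 + p.2.2 = p.1.1 + p.1.2 := by
    intro p hp
    rw [hT, mem_sigma, mem_product, mem_Icc, mem_Icc] at hp
    unfold prs at hp
    rw [mem_filter, mem_product, mem_Icc, mem_Icc] at hp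
    exact ⟨hp.1.1, hp.1.2, hp.2.1.1, hp.2.2⟩
  have hval : ∀ p ∈ T, Φ (dl k p.2 p.1) = Φ (hh k (g p)) := by
    intro p hp
    obtain ⟨_, _, _, h4⟩ := hprop p hp
    congr 1
    unfold dl
    simp only [hh, li, fk, hg]
    have h5 : (p.2.2 : ℤ) = (p.1.1 : ℤ) + p.1.2 - p.2.1 := by
      have : ((p.2.1 + p.2.2 : ℕ) : ℤ) = ((p.1.1 + p.1.2 : ℕ) : ℤ) := by rw [h4]
      push_cast at this
      linarith
    rw [h5]
    ring
  rw [Finset.sum_congr rfl hval]
  have hinj : Set.InjOn g T := by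
    intro p hp p' hp' heq
    have h1 := hprop p hp
    have h2 := hprop p' hp'
    obtain ⟨⟨a, b⟩, ⟨c, d⟩⟩ := p
    obtain ⟨⟨a', b'⟩, ⟨c', d'⟩⟩ := p'
    simp only [hg, Prod.mk.injEq, Nat.cast_inj] at heq
    simp only at h1 h2
    obtain ⟨e1, e2, e3⟩ := heq
    subst e1
    subst e2
    subst e3
    have : d = d' := by omega
    rw [this]
  rw [← Finset.sum_image (f := fun v => Φ (hh k v)) hinj]
  refine Finset.sum_le_sum_of_subset_of_nonneg ?_ fun v _ _ => hΦ _
  intro v hv
  obtain ⟨p, hp, rfl⟩ := Finset.mem_image.1 hv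
  have h1 := hprop p hp
  rw [mem_box]
  simp only [hg]
  refine ⟨⟨?_, ?_⟩, ⟨?_, ?_⟩, ⟨?_, ?_⟩⟩
  all_goals norm_cast
  · exact h1.1.1
  · exact h1.1.2
  · exact h1.2.1.1
  · exact h1.2.1.2
  · exact h1.2.2.1.1
  · exact h1.2.2.1.2

end Pool.Agent.Run7.h783.MW
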